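import Mathlib

/-! The arithmetic end of the linear range (MP_008206): pure integers. -/

set_option autoImplicit false

namespace SIF47

/-- `T ≤ -1` together with the three estimates (A), (B), (C) is impossible for `D ≥ 5 (k - 2)`. -/
theorem end_arith (w k D d ka h inc f T : ℤ) (hd : 0 ≤ d) (hka : 0 ≤ ka) (hkd : ka + d ≤ w)
    (hh : 0 ≤ h) (hinc : 0 ≤ inc) (hf : 0 ≤ f) (hfD : f ≤ D - 1) (hwk : w ≤ k - 3)
    (hD : 5 * (k - 2) ≤ D) (hF0 : d = 0 → f = 0)
    (hH : T ≤ -1 → D * h ≤ w * (k - 2) - 1)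
    (hA : w - ka + w * d - w * h + (D - 1 - ka) * h - d * f ≤ T)
    (hC : w + w * d - 2 * ka - (w - inc) * h + f ≤ T)
    (hB : w - ka + w * d - w * h + (w + 1 - d - inc) * f - (w - d) * (k - 1) ≤ T) : 0 ≤ T := by
  by_contra hT
  have hT : T ≤ -1 := by omega
  have hH := hH hT
  have hw0 : 0 ≤ w := by omega
  have hk2 : w + 1 ≤ k - 2 := by omega
  have hD1 : 5 * w + 5 ≤ D := by linarith
  rcases hd.eq_or_lt with hd0 | hd1
  · -- d = 0
    subst hd0
    have hf0 := hF0 rfl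
    subst hf0
    nlinarith [mul_nonneg hh (by linarith : (0 : ℤ) ≤ D - 1 - 2 * w),
      mul_nonneg hh (by linarith : (0 : ℤ) ≤ w - ka)]
  have hd1 : 1 ≤ d := hd1
  have hkw : ka ≤ w - d := by linarith
  -- (A)
  have hA1 : 1 + d + w * d + (D - 1 - 2 * w + d) * h ≤ d * f := by
    nlinarith [mul_nonneg hh (by linarith : (0 : ℤ) ≤ w - d - ka)]
  rcases lt_or_ge h d with hhd | hhd
  · -- h < d
    have : w * h ≤ w * (d - 1) := mul_le_mul_of_nonneg_left (by omega) hw0
    nlinarith [mul_nonneg hinc hh]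
  -- h ≥ d
  have hf1 : D - w + d + 1 ≤ f := by
    have h1 : d * (D - w + d) + 1 ≤ d * f := by
      nlinarith [mul_le_mul_of_nonneg_left hhd (by linarith : (0 : ℤ) ≤ D - 1 - 2 * w + d)]
    by_contra hc
    have h2 : f ≤ D - w + d := by omega
    have h3 : d * f ≤ d * (D - w + d) := mul_le_mul_of_nonneg_left h2 (by linarith)
    linarith
  rcases hhd.eq_or_lt with hhd | hhd
  · subst hhd
    nlinarith [mul_nonneg hinc hh]
  have hhd : d + 1 ≤ h := hhd
  -- 5 h < w
  have h5 : 5 * h ≤ w - 1 := by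
    by_contra hc
    have h1 : w ≤ 5 * h := by omega
    have h2 : 5 * (k - 2) * h ≤ D * h := mul_le_mul_of_nonneg_right hD hh
    have h3 : w * (k - 2) ≤ 5 * h * (k - 2) := mul_le_mul_of_nonneg_right h1 (by linarith)
    nlinarith
  -- (h - d) bound
  have hhd1 : (h - d) * (D - 1 - 2 * w + d) ≤ d * w := by
    have h1 : d * f ≤ d * (D - 1) := mul_le_mul_of_nonneg_left hfD (by linarith)
    nlinarith
  -- inc bound
  have hi1 : inc * h ≤ w * (h - d) := by
    nlinarith
  have hi2 : inc * (D - 1 - 2 * w) ≤ w ^ 2 := by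
    have h1 : inc * h * (D - 1 - 2 * w) ≤ w * (h - d) * (D - 1 - 2 * w) :=
      mul_le_mul_of_nonneg_right hi1 (by linarith)
    have h2 : w * ((h - d) * (D - 1 - 2 * w)) ≤ w * (d * w) := by
      apply mul_le_mul_of_nonneg_left _ hw0
      nlinarith [mul_nonneg (by linarith : (0 : ℤ) ≤ h - d) hd]
    have h3 : w * (d * w) ≤ w ^ 2 * h := by
      nlinarith [mul_nonneg (sq_nonneg w) (by linarith : (0 : ℤ) ≤ h - d)]
    have h4 : inc * (D - 1 - 2 * w) * h ≤ w ^ 2 * h := by nlinarith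
    exact le_of_mul_le_mul_right h4 (by linarith)
  have hi3 : 3 * inc ≤ w - 1 := by
    by_contra hc
    have h1 : w ≤ 3 * inc := by omega
    have h2 : inc * (3 * w + 4) ≤ inc * (D - 1 - 2 * w) :=
      mul_le_mul_of_nonneg_left (by linarith) hinc
    have h3 : w * w ≤ 3 * inc * w := mul_le_mul_of_nonneg_right h1 hw0
    have h4 : 0 < inc := by omega
    nlinarith
  -- (B)
  have hd5 : 5 * d ≤ w - 6 := by linarith
  have hcf : 7 * w + 23 ≤ 15 * (w + 1 - d - inc) := by linarith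
  have hf2 : 4 * (k - 2) + 3 ≤ f := by linarith
  have hL : (7 * w + 23) * (4 * (k - 2) + 3) ≤ 15 * (w + 1 - d - inc) * f := by
    apply mul_le_mul hcf hf2 (by linarith) (by linarith)
  have hR : (w - d) * (k - 1) ≤ w * (k - 1) := by
    nlinarith [mul_nonneg hd (by linarith : (0 : ℤ) ≤ k - 1)]
  have hR2 : w * (h - d) * 5 ≤ w * (w - 1) := by
    nlinarith [mul_nonneg hw0 hd]
  have hR3 : w * (w - 1) ≤ w * (k - 2) := mul_le_mul_of_nonneg_left (by linarith) hw0
  nlinarith [mul_nonneg hw0 (by linarith : (0 : ℤ) ≤ k - 2)]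

end SIF47
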