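import Pool.Agent.H20.SIF.Triv

/-! Unordered form of MP_008206_co: a line of maximal degree `D = w + 3`. -/

set_option autoImplicit false

namespace SIFU
open Finset

variable {P Q : Type} [Fintype P] [Fintype Q] [DecidableEq P] [DecidableEq Q]

/-- the defect `w + 1 - |O r|` of a row of the family -/
def dl (A : P → Q → Bool) (p : P) (R : Q → Finset P) (w : ℕ) (r : P) : ℕ :=
  if r ∈ I0 A p R then 0 else w + 1 - (Oo A p r).card

/-- rows `≠ p` in some copy of the family -/
def Lv (A : P → Q → Bool) (p : P) (R : Q → Finset P) : Finset P :=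
  (univ.erase p) \ I0 A p R

namespace Ctx

variable {A : P → Q → Bool} {k x D w : ℕ} {p : P} {R : Q → Finset P} {C : Q → Finset Q}

theorem pI0 : p ∉ I0 A p R := by
  unfold I0
  rw [mem_filter]
  rintro ⟨_, h1, _⟩
  exact h1 rfl

theorem Oo_pos (h : Ctx A k x p R C) {r : P} (hr : r ∈ Lv A p R) : 1 ≤ (Oo A p r).card := by
  unfold Lv at hr
  rw [mem_sdiff, mem_erase] at hr
  obtain ⟨⟨hrp, _⟩, hr⟩ := hr
  unfold I0 at hr
  rw [mem_filter, not_and, not_and] at hr
  have h1 : (G A p R r).Nonempty := nonempty_iff_ne_empty.2 (hr (mem_univ r) hrp)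
  obtain ⟨c, hc⟩ := h1
  simp only [G, mem_filter] at hc
  have h2 := h.outcard hc.1 hc.2 hrp
  unfold Oo
  omega

/-- the bound with the defects of the rows outside the copy of `c` -/
theorem triv_dl (h : Ctx A k x p R C) (hp : (Nr A p).card = D) (hDw : D + w = x + 1)
    (hR : ∀ r, (Nr A r).card ≤ D) (hC : ∀ c, (Nc A c).card ≤ D) {c : Q} (hc : c ∈ Nr A p) :
    ((E A).card : ℤ) + w + (∑ u ∈ Nr A p, (Ww A R u \ I0 A p R).card : ℕ) +
      (w + 1) * (I0 A p R).card + (∑ r ∈ (Nc A c).erase p, dl A p R w r : ℕ) ≤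
      ((x : ℤ) + 1) ^ 2 + (k + x - 1) + w * D := by
  have hE := h.Ecount hp
  have hsO := h.rowsplit hc (fun r => (Oo A p r).card)
  have hORc := h.ORc hc
  have hA : ∑ v ∈ Ac A p C c, (R c ∩ Nc A v).card ≤ w * D := by
    calc ∑ v ∈ Ac A p C c, (R c ∩ Nc A v).card ≤ ∑ v ∈ Ac A p C c, D :=
          sum_le_sum (fun v _ => (card_le_card inter_subset_right).trans (hC v))
      _ = w * D := by rw [sum_const, h.cardAc hp hDw hc, smul_eq_mul]
  have hpt : ∀ r, r ≠ p → (Oo A p r).card + (w + 1) * (if r ∈ I0 A p R then 1 else 0) +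
      dl A p R w r ≤ (if r ∈ I0 A p R then (Hs A p R r).card else 0) + (w + 1) := by
    intro r hr
    unfold dl
    by_cases h1 : r ∈ I0 A p R
    · have := h.out_le0 hp hR h1
      simp only [h1, if_true]
      omega
    · have := h.out_le hp hDw hr h1
      simp only [h1, if_false]
      omega
  have hsum : ∀ X : Finset P, p ∉ X →
      ∑ r ∈ X, (Oo A p r).card + (w + 1) * ∑ r ∈ X, (if r ∈ I0 A p R then 1 else 0) +
      ∑ r ∈ X, dl A p R w r ≤
      ∑ r ∈ X, (if r ∈ I0 A p R then (Hs A p R r).card else 0) + (w + 1) * X.card := by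
    intro X hX
    have h1 : ∑ r ∈ X, ((Oo A p r).card + (w + 1) * (if r ∈ I0 A p R then 1 else 0) +
        dl A p R w r) ≤
        ∑ r ∈ X, ((if r ∈ I0 A p R then (Hs A p R r).card else 0) + (w + 1)) := by
      apply sum_le_sum
      intro r hr
      apply hpt
      rintro rfl
      exact hX hr
    rw [sum_add_distrib, sum_add_distrib, sum_add_distrib, ← mul_sum, sum_const,
      smul_eq_mul] at h1
    rw [mul_comm (w + 1) X.card]
    exact h1
  have h1 := hsum ((Nc A c).erase p) (notMem_erase _ _)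
  have h2 := hsum (Ww A R c) (pW hc)
  have hsg := h.rowsplit hc (fun r => if r ∈ I0 A p R then (Hs A p R r).card else 0)
  have hsi := h.rowsplit hc (fun r => if r ∈ I0 A p R then 1 else 0)
  have hz1 : ∑ r ∈ R c, (if r ∈ I0 A p R then (Hs A p R r).card else 0) = 0 := by
    apply sum_eq_zero
    intro r hr
    rw [if_neg]
    intro h3
    exact I0_notR hc h3 hr
  have hz2 : ∑ r ∈ R c, (if r ∈ I0 A p R then 1 else 0) = 0 := by
    apply sum_eq_zero
    intro r hr
    rw [if_neg]
    intro h3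
    exact I0_notR hc h3 hr
  have hcJ : ∑ r, (if r ∈ I0 A p R then 1 else 0) = (I0 A p R).card := by
    rw [← card_filter]
    congr 1
    ext r
    simp
  have hHs : ∑ r, (Hs A p R r).card = ∑ r, (if r ∈ I0 A p R then (Hs A p R r).card else 0) +
      ∑ u ∈ Nr A p, (Ww A R u \ I0 A p R).card := by
    rw [← sumHs, ← sum_filter]
    have h3 : univ.filter (fun r => r ∈ I0 A p R) = I0 A p R := by ext r; simp
    rw [h3, add_comm]
    exact (sum_sdiff (subset_univ _)).symm
  have hW := h.cardW hc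
  have hpc : p ∈ Nc A c := mem_Nc.2 (mem_Nr.1 hc)
  have hcp : ((Nc A c).erase p).card + 1 = (Nc A c).card := by
    have h3 : 0 < (Nc A c).card := card_pos.2 ⟨p, hpc⟩
    rw [card_erase_of_mem hpc]
    omega
  beta_reduce at hsO hsg hsi
  rw [hz1] at hsg
  rw [hz2, hcJ] at hsi
  -- names for the sums
  generalize ∑ r, (Hs A p R r).card = sH at hE hHs
  generalize ∑ r, (Oo A p r).card = sO at hE hsO
  generalize ∑ r ∈ R c, (Oo A p r).card = sR at hsO hORc
  generalize ∑ v ∈ Ac A p C c, (R c ∩ Nc A v).card = sA at hORc hA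
  generalize ∑ r ∈ (Nc A c).erase p, (Oo A p r).card = o1 at h1 hsO
  generalize ∑ r ∈ Ww A R c, (Oo A p r).card = o2 at h2 hsO
  generalize ∑ r ∈ (Nc A c).erase p, (if r ∈ I0 A p R then 1 else 0) = i1 at h1 hsi
  generalize ∑ r ∈ Ww A R c, (if r ∈ I0 A p R then 1 else 0) = i2 at h2 hsi
  generalize ∑ r ∈ (Nc A c).erase p, (if r ∈ I0 A p R then (Hs A p R r).card else 0) = g1
    at h1 hsg
  generalize ∑ r ∈ Ww A R c, (if r ∈ I0 A p R then (Hs A p R r).card else 0) = g2 at h2 hsg
  generalize ∑ r, (if r ∈ I0 A p R then (Hs A p R r).card else 0) = sg at hHs hsg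
  generalize ∑ u ∈ Nr A p, (Ww A R u \ I0 A p R).card = sl at hHs ⊢
  generalize (I0 A p R).card = j at hsi ⊢
  generalize ∑ r ∈ (Nc A c).erase p, dl A p R w r = z1 at h1 ⊢
  generalize ∑ r ∈ Ww A R c, dl A p R w r = z2 at h2
  generalize ((Nc A c).erase p).card = x1 at h1 hcp
  generalize (Ww A R c).card = x2 at h2 hW
  generalize (Nc A c).card = y at hcp hW
  generalize (E A).card = e at hE ⊢
  have hx : x1 + x2 = x := by omega
  have hz2 : (0 : ℤ) ≤ z2 := Int.natCast_nonneg z2
  zify at *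
  have hxx : (x : ℤ) = D + w - 1 := by linarith
  have hx1 : (x1 : ℤ) = D + w - 1 - x2 := by linarith
  clear hpt hsum hz1 hcJ hp hR hC
  rw [hxx] at hE ⊢
  rw [hx1] at h1
  rw [hsi]
  have e1 : (e : ℤ) = D * (D + w) + (sR + o1 + o2) - (g1 + g2 + sl) := by
    have e2 : (sg : ℤ) = g1 + g2 := by linarith
    rw [hHs, hsO, e2] at hE
    linarith
  have e2 : (sR : ℤ) = k + sA - 1 := by linarith
  rw [e1, e2]
  linarith

/-! ### the double count -/

theorem Hs_p : (Hs A p R p).card = 0 := by rw [Hp, card_empty]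

theorem card_Lv (h : Ctx A k x p R C) : (Lv A p R).card + (I0 A p R).card + 1 = k + x := by
  unfold Lv
  have h1 : I0 A p R ⊆ univ.erase p := by
    intro r hr
    rw [mem_erase]
    refine ⟨?_, mem_univ r⟩
    rintro rfl
    exact pI0 hr
  have h2 := card_sdiff_add_card_eq_card h1
  have h3 : (univ.erase p).card + 1 = k + x := by
    rw [card_erase_of_mem (mem_univ p), card_univ, h.cP]
    have : 0 < k + x := by rw [← h.cP]; exact Fintype.card_pos_iff.2 ⟨p⟩
    omega
  omega

/-- sums over the rows of the family -/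
theorem sum_Lv (f : P → ℕ) : ∑ r, f r = ∑ r ∈ Lv A p R, f r + ∑ r ∈ I0 A p R, f r + f p := by
  unfold Lv
  have h1 : I0 A p R ⊆ univ.erase p := by
    intro r hr
    rw [mem_erase]
    refine ⟨?_, mem_univ r⟩
    rintro rfl
    exact pI0 hr
  rw [sum_sdiff h1, sum_erase_add _ _ (mem_univ p)]

/-- the ones of the rows of the family in `N(p)` -/
theorem sum_b (h : Ctx A k x p R C) (hp : (Nr A p).card = D) :
    ∑ r ∈ Lv A p R, (Nr A p ∩ Nr A r).card + ∑ u ∈ Nr A p, (Ww A R u \ I0 A p R).card +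
      D * (I0 A p R).card = D * x := by
  have h1 : ∑ r ∈ Lv A p R, ((Nr A p ∩ Nr A r).card + (G A p R r).card + (Hs A p R r).card) =
      ∑ r ∈ Lv A p R, D := by
    apply sum_congr rfl
    intro r hr
    unfold Lv at hr
    rw [mem_sdiff, mem_erase] at hr
    rw [h.part hr.1.1, hp]
  rw [sum_add_distrib, sum_add_distrib, sum_const, smul_eq_mul] at h1
  have h2 := sum_Lv (A := A) (p := p) (R := R) (fun r => (G A p R r).card)
  beta_reduce at h2
  have h3 : ∑ r ∈ I0 A p R, (G A p R r).card = 0 := by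
    apply sum_eq_zero
    intro r hr
    unfold I0 at hr
    rw [mem_filter] at hr
    rw [hr.2.2, card_empty]
  rw [h.sumG, h3, h.Gp, hp] at h2
  have h4 : ∑ r ∈ univ \ I0 A p R, (Hs A p R r).card = ∑ r ∈ Lv A p R, (Hs A p R r).card := by
    have h5 := sum_Lv (A := A) (p := p) (R := R) (fun r => (Hs A p R r).card)
    have h6 := sum_sdiff (f := fun r => (Hs A p R r).card) (subset_univ (I0 A p R))
    beta_reduce at h5 h6
    rw [Hs_p] at h5
    omega
  rw [sumHs] at h4
  have h5 := h.card_Lv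
  rw [← h4] at h1
  generalize ∑ r ∈ Lv A p R, (Nr A p ∩ Nr A r).card = sb at *
  generalize ∑ r ∈ Lv A p R, (G A p R r).card = sg at *
  generalize ∑ u ∈ Nr A p, (Ww A R u \ I0 A p R).card = sh at *
  generalize (Lv A p R).card = n at *
  generalize (I0 A p R).card = j at *
  have h6 : n * D + D * j + D = D * k + D * x := by
    have : D * (n + j + 1) = D * (k + x) := by rw [h5]
    nlinarith
  omega

theorem sum_dl (A : P → Q → Bool) (p : P) (R : Q → Finset P) (w : ℕ) :
    ∑ r ∈ Lv A p R, (Nr A p ∩ Nr A r).card * dl A p R w r ≤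
      ∑ c ∈ Nr A p, ∑ r ∈ (Nc A c).erase p, dl A p R w r := by
  have h1 : ∀ c, ∑ r ∈ (Nc A c).erase p, dl A p R w r =
      ∑ r ∈ univ.erase p, if A r c = true then dl A p R w r else 0 := by
    intro c
    rw [← sum_filter]
    apply sum_congr _ (fun _ _ => rfl)
    ext r
    simp only [mem_erase, mem_Nc, mem_filter, mem_univ]
    tauto
  simp only [h1]
  rw [sum_comm]
  have h2 : ∀ r, ∑ c ∈ Nr A p, (if A r c = true then dl A p R w r else 0) =
      (Nr A p ∩ Nr A r).card * dl A p R w r := by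
    intro r
    rw [← sum_filter, sum_const, smul_eq_mul]
    congr 2
    ext c
    rw [mem_filter, mem_inter, mem_Nr (r := r)]
  simp only [h2]
  apply sum_le_sum_of_subset
  unfold Lv
  exact sdiff_subset

theorem sum_o (h : Ctx A k x p R C) (hp : (Nr A p).card = D) (hDw : D + w = x + 1)
    (hC : ∀ c, (Nc A c).card ≤ D) {c : Q} (hc : c ∈ Nr A p) :
    ∑ r ∈ Lv A p R, (Oo A p r).card + (w + 1) * (I0 A p R).card + 1 ≤
      k + w * D + (w + 1) * x := by
  have hORc := h.ORc hc
  have hA : ∑ v ∈ Ac A p C c, (R c ∩ Nc A v).card ≤ w * D := by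
    calc ∑ v ∈ Ac A p C c, (R c ∩ Nc A v).card ≤ ∑ v ∈ Ac A p C c, D :=
          sum_le_sum (fun v _ => (card_le_card inter_subset_right).trans (hC v))
      _ = w * D := by rw [sum_const, h.cardAc hp hDw hc, smul_eq_mul]
  have h1 : Lv A p R ⊆ R c ∪ ((univ \ R c) \ I0 A p R) := by
    intro r hr
    unfold Lv at hr
    rw [mem_sdiff, mem_erase] at hr
    by_cases h2 : r ∈ R c
    · exact mem_union_left _ h2
    · apply mem_union_right
      rw [mem_sdiff, mem_sdiff]
      exact ⟨⟨mem_univ r, h2⟩, hr.2⟩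
  have h2 : Disjoint (R c) ((univ \ R c) \ I0 A p R) := by
    rw [disjoint_left]
    intro r hr hr2
    rw [mem_sdiff, mem_sdiff] at hr2
    exact hr2.1.2 hr
  have h3 : ∑ r ∈ Lv A p R, (Oo A p r).card ≤ ∑ r ∈ R c, (Oo A p r).card +
      ∑ r ∈ (univ \ R c) \ I0 A p R, (Oo A p r).card := by
    rw [← sum_union h2]
    exact sum_le_sum_of_subset h1
  have h4 : ∑ r ∈ (univ \ R c) \ I0 A p R, (Oo A p r).card ≤
      ((univ \ R c) \ I0 A p R).card * (w + 1) := by
    rw [← smul_eq_mul, ← sum_const]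
    apply sum_le_sum
    intro r hr
    rw [mem_sdiff, mem_sdiff] at hr
    refine h.out_le hp hDw ?_ hr.2
    rintro rfl
    exact hr.1.2 (h.pR c hc)
  have h5 : I0 A p R ⊆ univ \ R c := by
    intro r hr
    rw [mem_sdiff]
    exact ⟨mem_univ r, I0_notR hc hr⟩
  have h6 := card_sdiff_add_card_eq_card h5
  have h7 : (univ \ R c).card = x := by
    rw [card_sdiff_of_subset (subset_univ _), card_univ, h.cP, (h.cp c hc).cR]
    omega
  rw [h7] at h6
  have h8 : ((univ \ R c) \ I0 A p R).card * (w + 1) + (w + 1) * (I0 A p R).card =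
      (w + 1) * x := by
    rw [← h6]; ring
  omega

/-- the inequality for one row -/
theorem row_ineq {t w b s d : ℤ} (hw : 0 ≤ w) (ht : 0 ≤ t) (hb0 : 0 ≤ b) (hd0 : 0 ≤ d) (hs0 : 0 ≤ s)
    (hsd : s + d = w) (hb : b ≤ t + d) :
    w * (1 + t) * b ≤ t * (1 + t) * s + (w + t) * (b * d) := by
  obtain rfl : s = w - d := by linarith
  rcases eq_or_lt_of_le hd0 with h0 | h0
  · subst h0
    have h1 : w * (1 + t) * b ≤ w * (1 + t) * t :=
      mul_le_mul_of_nonneg_left (by linarith) (mul_nonneg hw (by linarith))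
    nlinarith
  · have hd1 : 1 ≤ d := h0
    have h1 : 0 ≤ (t + d - b) * (t * (1 + t) * (w - d)) :=
      mul_nonneg (by linarith) (mul_nonneg (mul_nonneg ht (by linarith)) (by linarith))
    have h2 : 0 ≤ b * (d * (w + t) * (d - 1)) :=
      mul_nonneg hb0 (mul_nonneg (mul_nonneg hd0 (by linarith)) (by linarith))
    have h3 : 0 < t + d := by linarith
    have h4 : 0 ≤ (t + d) * (t * (1 + t) * (w - d) + (w + t) * (b * d) - w * (1 + t) * b) := by
      have e : (t + d) * (t * (1 + t) * (w - d) + (w + t) * (b * d) - w * (1 + t) * b) =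
          (t + d - b) * (t * (1 + t) * (w - d)) + b * (d * (w + t) * (d - 1)) := by ring
      rw [e]
      linarith
    have h5 := nonneg_of_mul_nonneg_right h4 h3
    linarith

/-- **The double count** (`t = D - w - 1`). -/
theorem dcount (h : Ctx A k x p R C) (hp : (Nr A p).card = D) (hDw : D + w = x + 1)
    (hR : ∀ r, (Nr A r).card ≤ D) (hC : ∀ c, (Nc A c).card ≤ D) (hne : (Nr A p).Nonempty)
    {t : ℕ} (ht : w + t + 1 = D) (hcon : (x + 1) ^ 2 + (k + x - 1) < (E A).card) :
    ∃ j H : ℕ, (w : ℤ) * D ≤ H + D * j ∧ (H : ℤ) + (w + 1) * (j + 1) ≤ w * D ∧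
      (w : ℤ) * (1 + t) * (D * (x - j) - H) ≤ t * (1 + t) * (w * (D + x - j)) +
        (w + t) * (D * (w * D - (w + 1) * (j + 1) - H)) := by
  refine ⟨(I0 A p R).card, ∑ u ∈ Nr A p, (Ww A R u \ I0 A p R).card, ?_, ?_, ?_⟩
  · have h1 : ∀ u ∈ Nr A p, w ≤ (Ww A R u \ I0 A p R).card + (I0 A p R).card := by
      intro u hu
      have h2 := h.cardW hu
      have h3 := hC u
      have h4 : Ww A R u ⊆ (Ww A R u \ I0 A p R) ∪ I0 A p R := by
        intro r hr
        by_cases h4 : r ∈ I0 A p R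
        · exact mem_union_right _ h4
        · exact mem_union_left _ (mem_sdiff.2 ⟨hr, h4⟩)
      have h5 := (card_le_card h4).trans (card_union_le _ _)
      omega
    have h2 := sum_le_sum h1
    rw [sum_const, smul_eq_mul, sum_add_distrib, sum_const, smul_eq_mul, hp] at h2
    have h3 : w * D ≤ ∑ u ∈ Nr A p, (Ww A R u \ I0 A p R).card + D * (I0 A p R).card := by
      rw [mul_comm w D]; exact h2
    exact_mod_cast h3
  · obtain ⟨c, hc⟩ := hne
    have h1 := h.triv_dl hp hDw hR hC hc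
    have h2 : (0 : ℤ) ≤ (∑ r ∈ (Nc A c).erase p, dl A p R w r : ℕ) := Int.natCast_nonneg _
    have hkx : 1 ≤ k + x := by rw [← h.cP]; exact Fintype.card_pos_iff.2 ⟨p⟩
    have h3 : ((x : ℤ) + 1) ^ 2 + (k + x - 1) + 1 ≤ (E A).card := by
      have h4 : (x + 1) ^ 2 + (k + x) ≤ (E A).card := by omega
      zify at h4
      linarith
    linarith
  · have hkx : 1 ≤ k + x := by rw [← h.cP]; exact Fintype.card_pos_iff.2 ⟨p⟩
    have h3 : ((x : ℤ) + 1) ^ 2 + (k + x - 1) + 1 ≤ (E A).card := by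
      have h4 : (x + 1) ^ 2 + (k + x) ≤ (E A).card := by omega
      zify at h4
      linarith
    have hz : ((∑ c ∈ Nr A p, ∑ r ∈ (Nc A c).erase p, dl A p R w r : ℕ) : ℤ) ≤
        D * (w * D - (w + 1) * ((I0 A p R).card + 1) -
          (∑ u ∈ Nr A p, (Ww A R u \ I0 A p R).card : ℕ)) := by
      rw [Nat.cast_sum]
      have h4 : ∀ c ∈ Nr A p, ((∑ r ∈ (Nc A c).erase p, dl A p R w r : ℕ) : ℤ) ≤
          (w * D - (w + 1) * ((I0 A p R).card + 1) -
          (∑ u ∈ Nr A p, (Ww A R u \ I0 A p R).card : ℕ)) := by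
        intro c hc
        have h1 := h.triv_dl hp hDw hR hC hc
        linarith
      have h5 := sum_le_sum h4
      rw [sum_const, hp, nsmul_eq_mul] at h5
      exact h5
    have hdl := sum_dl A p R w
    have hb := h.sum_b hp
    have hpt : ∀ r ∈ Lv A p R, (w : ℤ) * (1 + t) * ((Nr A p ∩ Nr A r).card : ℕ) ≤
        t * (1 + t) * ((Oo A p r).card - 1) +
        (w + t) * (((Nr A p ∩ Nr A r).card * dl A p R w r : ℕ) : ℤ) := by
      intro r hr
      have h4 := h.Oo_pos hr
      unfold Lv at hr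
      rw [mem_sdiff, mem_erase] at hr
      have h5 := h.out_le hp hDw hr.1.1 hr.2
      have h6 := degsplit A p r
      have h7 := hR r
      have h8 : dl A p R w r = w + 1 - (Oo A p r).card := by
        unfold dl
        rw [if_neg hr.2]
      rw [h8]
      unfold Oo at *
      rw [Nat.cast_mul]
      apply row_ineq (d := ((w + 1 - (Nr A r \ Nr A p).card : ℕ) : ℤ))
      · positivity
      · positivity
      · positivity
      · positivity
      · linarith [(by exact_mod_cast h4 : (1 : ℤ) ≤ (Nr A r \ Nr A p).card)]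
      · rw [Nat.cast_sub h5]; push_cast; ring
      · rw [Nat.cast_sub h5]
        push_cast
        have h9 : (Nr A p ∩ Nr A r).card + (Nr A r \ Nr A p).card ≤ D := by omega
        have h10 : ((Nr A p ∩ Nr A r).card : ℤ) + (Nr A r \ Nr A p).card ≤ w + t + 1 := by
          rw [← ht] at h9
          exact_mod_cast h9
        linarith
    have hS := sum_le_sum hpt
    rw [← mul_sum, sum_add_distrib, ← mul_sum, ← mul_sum, sum_sub_distrib, sum_const,
      nsmul_eq_mul, mul_one, ← Nat.cast_sum, ← Nat.cast_sum, ← Nat.cast_sum] at hS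
    obtain ⟨c, hc⟩ := hne
    have ho := h.sum_o hp hDw hC hc
    have hL := h.card_Lv
    generalize ∑ c ∈ Nr A p, ∑ r ∈ (Nc A c).erase p, dl A p R w r = Z at hz hdl
    generalize ∑ r ∈ Lv A p R, (Nr A p ∩ Nr A r).card * dl A p R w r = Z2 at hdl hS
    generalize ∑ r ∈ Lv A p R, (Nr A p ∩ Nr A r).card = sb at hb hS
    generalize ∑ r ∈ Lv A p R, (Oo A p r).card = so at ho hS
    generalize ∑ u ∈ Nr A p, (Ww A R u \ I0 A p R).card = H at *
    generalize (I0 A p R).card = j at *
    generalize (Lv A p R).card = n at *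
    clear hpt hR hC h3 hcon
    zify at hb hdl ho hL
    have e1 : (sb : ℤ) = D * (x - j) - H := by linarith
    rw [← e1]
    have e2 : (so : ℤ) - n ≤ w * (D + x - j) := by
      have : (n : ℤ) = k + x - 1 - j := by linarith
      rw [this]
      linarith
    have e3 : (t : ℤ) * (1 + t) * (so - n) ≤ t * (1 + t) * (w * (D + x - j)) :=
      mul_le_mul_of_nonneg_left e2 (by positivity)
    have e4 : ((w : ℤ) + t) * Z2 ≤
        (w + t) * (D * (w * D - (w + 1) * (j + 1) - H)) :=
      mul_le_mul_of_nonneg_left (by linarith) (by positivity)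
    linarith

end Ctx

/-- the arithmetic for `D = w + 3` -/
theorem ar_two {w j H D x : ℤ} (hw : 3 ≤ w) (_hj : 0 ≤ j) (hH : 0 ≤ H) (hD : D = w + 3)
    (hx : x = 2 * w + 2) (h1 : w * D ≤ H + D * j) (h2 : H + (w + 1) * (j + 1) ≤ w * D)
    (h3 : w * (1 + 2) * (D * (x - j) - H) ≤ 2 * (1 + 2) * (w * (D + x - j)) +
        (w + 2) * (D * (w * D - (w + 1) * (j + 1) - H))) : False := by
  subst hD hx
  obtain ⟨b, hb⟩ : ∃ b, b = w * (w + 3) - (w + 1) * (j + 1) - H := ⟨_, rfl⟩
  have hb0 : 0 ≤ b := by linarith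
  have hjw : j ≤ w := by
    by_contra hc
    have : w + 1 ≤ j := by linarith [Int.add_one_le_iff.mpr (not_le.mp hc)]
    nlinarith
  have hbw : b ≤ w - 1 := by nlinarith
  obtain rfl : H = w * (w + 3) - (w + 1) * (j + 1) - b := by linarith
  have h4 : 3 * w * (w * w - 3) ≤ b * (w * w + 2 * w + 6) := by nlinarith
  have h5 : b * (w * w + 2 * w + 6) ≤ (w - 1) * (w * w + 2 * w + 6) :=
    mul_le_mul_of_nonneg_right hbw (by nlinarith)
  nlinarith [mul_nonneg (mul_nonneg (sub_nonneg.2 hw) (by linarith : (0:ℤ) ≤ w))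
    (by linarith : (0:ℤ) ≤ w), mul_nonneg (sub_nonneg.2 hw) (by linarith : (0:ℤ) ≤ w)]

/-- a fullest row with `D = w + 3` ones, `w ≥ 3` -/
theorem two_row {A : P → Q → Bool} {k x D w : ℕ} (cP : Fintype.card P = k + x)
    (cQ : Fintype.card Q = k + x) (hU : U A k) (hR : ∀ r, (Nr A r).card ≤ D)
    (hC : ∀ c, (Nc A c).card ≤ D) (hDw : D + w = x + 1) (p : P)
    (hp : (Nr A p).card = D) (hD : D = w + 3) (hw : 3 ≤ w) :
    (E A).card ≤ (x + 1) ^ 2 + (k + x - 1) := by
  classical
  by_contra hcon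
  rw [not_le] at hcon
  obtain ⟨R, C, h⟩ := Ctx_exists cP cQ hU p
  have hne : (Nr A p).Nonempty := by rw [← card_pos, hp]; omega
  obtain ⟨j, H, h1, h2, h3⟩ := h.dcount hp hDw hR hC hne (t := 2) (by omega) hcon
  have hx : x = 2 * w + 2 := by omega
  exact ar_two (w := w) (j := j) (H := H) (D := D) (x := x) (by exact_mod_cast hw)
    (Int.natCast_nonneg j) (Int.natCast_nonneg H) (by exact_mod_cast hD) (by exact_mod_cast hx)
    h1 h2 (by exact_mod_cast h3)

end SIFU
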