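import Pool.Agent.H84.SIF.Extra
import Pool.Agent.H47.SIF.Tau

/-! Exact ranges of MP_008206_co, with the case `D = w + 3`. -/

set_option autoImplicit false

namespace SIFU
open Finset

/-- The case distinction on `w` behind the extra exact ranges. -/
theorem range47 {k x w D : ℤ} (hk : 2 ≤ k) (hx : 0 ≤ x) (hw : 0 ≤ w) (hDx : D + w = x + 1)
    (hc : (k ≤ 10 ∧ x ≠ 11) ∨ k ≤ 9 ∨ x ≤ 10 ∨ x = 12) :
    ((2 * w + 1 ≤ D ∧ w ≤ 4) ∨ (2 * w + 1 ≤ D ∧ w + k - 3 ≤ D)) ∨ (D = w + 3 ∧ 3 ≤ w) ∨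
      (k + x) * D ≤ (x + 1) ^ 2 + (k + x - 1) ∨ k + 2 * x * D ≤ (x + 1) ^ 2 + (k + x - 1) := by
  obtain rfl : D = x + 1 - w := by linarith
  rcases le_or_gt x (2 * w + 1) with h1 | h1
  · right; right; right
    have h2 : 0 ≤ x * (2 * w + 1 - x) := mul_nonneg hx (by linarith)
    nlinarith
  rcases le_or_gt w 2 with h2 | h2
  · left; left; constructor <;> omega
  rcases le_or_gt (3 * w) x with h3 | h3
  · -- `2 w + 1 ≤ D`
    rcases le_or_gt w 4 with h4 | h4
    · left; left; constructor <;> omega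
    · -- `w ≥ 5`, so `x ≥ 15` and `k ≤ 10`
      have hk10 : k ≤ 10 := by omega
      rcases le_or_gt (w + k - 3) (x + 1 - w) with h5 | h5
      · left; right; constructor <;> omega
      · right; right; left
        -- `x ≤ 2 w + k - 5`
        have h6 : x ≤ 2 * w + 5 := by omega
        have h7 : w = 5 := by omega
        subst h7
        have h8 : x = 15 := by omega
        subst h8
        omega
  · -- `2 w + 2 ≤ x < 3 w`
    rcases eq_or_ne x (2 * w + 2) with h4 | h4
    · right; left; constructor <;> omega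
    · rcases hc with ⟨h5, h6⟩ | h5 | h5 | h5
      · -- k ≤ 10, x ≠ 11
        rcases le_or_gt 15 x with h7 | h7
        · rcases range25 (k := k) (x := x) (w := w) (D := x + 1 - w) hk hx hw (by ring)
            (by linarith) (by nlinarith) with h8 | h8
          · left; right; exact h8
          · right; right; left; exact h8
        · right; right; left
          have h8 : w = 4 ∨ w = 5 := by omega
          rcases h8 with h8 | h8
          · exfalso; omega
          · subst h8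
            have h9 : x = 13 ∨ x = 14 := by omega
            rcases h9 with h9 | h9 <;> subst h9 <;> nlinarith
      · rcases le_or_gt 13 x with h7 | h7
        · rcases range25 (k := k) (x := x) (w := w) (D := x + 1 - w) hk hx hw (by ring)
            (by linarith) (by nlinarith) with h8 | h8
          · left; right; exact h8
          · right; right; left; exact h8
        · right; right; left
          have h8 : w = 4 := by omega
          subst h8
          have h9 : x = 11 := by omega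
          subst h9
          nlinarith
      · exfalso; omega
      · exfalso; omega

theorem side47 {P Q : Type} [Fintype P] [Fintype Q] [DecidableEq P] [DecidableEq Q]
    {A : P → Q → Bool} {k x D : ℕ} (cP : Fintype.card P = k + x)
    (cQ : Fintype.card Q = k + x) (hU : U A k) (hk : 2 ≤ k) (hR : ∀ r, (Nr A r).card ≤ D)
    (hC : ∀ c, (Nc A c).card ≤ D) (hD : 1 ≤ D) (p : P) (hp : (Nr A p).card = D)
    (hc : (k ≤ x + 8 ∧ k ^ 2 + 2 * k * x ≤ x ^ 2 + 9 * x + 5 * k) ∨
      (k ≤ 10 ∧ x ≠ 11) ∨ k ≤ 9 ∨ x ≤ 10 ∨ x = 12) :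
    (E A).card ≤ (x + 1) ^ 2 + (k + x - 1) := by
  have hDx : D ≤ x + 1 := by
    rw [← hp]
    exact deg_le cQ hU p
  obtain ⟨w, hw⟩ : ∃ w, D + w = x + 1 := ⟨x + 1 - D, by omega⟩
  obtain ⟨B, hB⟩ : ∃ B, B = (x + 1) ^ 2 + (k + x - 1) := ⟨_, rfl⟩
  have hBz : (B : ℤ) = ((x : ℤ) + 1) ^ 2 + ((k : ℤ) + x - 1) := by
    obtain ⟨m, hm⟩ : ∃ m, m + 1 = k + x := ⟨k + x - 1, by omega⟩
    have hm2 : k + x - 1 = m := by omega
    rw [hB, hm2]
    zify at hm
    push_cast
    linarith
  have hwz : (D : ℤ) + w = x + 1 := by exact_mod_cast hw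
  have hkz : (2 : ℤ) ≤ k := by exact_mod_cast hk
  have hw0 : (0 : ℤ) ≤ w := Int.natCast_nonneg w
  have hx0 : (0 : ℤ) ≤ x := Int.natCast_nonneg x
  have key : ((2 * (w : ℤ) + 1 ≤ D ∧ (w : ℤ) ≤ 4) ∨
      (2 * (w : ℤ) + 1 ≤ D ∧ (w : ℤ) + k - 3 ≤ D)) ∨ ((D : ℤ) = w + 3 ∧ (3 : ℤ) ≤ w) ∨
      (((k : ℤ) + x) * D ≤ B ∨ (k : ℤ) + 2 * x * D ≤ B) := by
    rw [hBz]
    rcases hc with ⟨h1, h2⟩ | h
    · have h1' : (k : ℤ) ≤ x + 8 := by exact_mod_cast h1
      have h2' : (k : ℤ) ^ 2 + 2 * k * x ≤ x ^ 2 + 9 * x + 5 * k := by exact_mod_cast h2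
      rcases range25 hkz hx0 hw0 hwz h1' h2' with h3 | h3
      · exact Or.inl (Or.inr h3)
      · exact Or.inr (Or.inr (Or.inl h3))
    · have h' : ((k : ℤ) ≤ 10 ∧ (x : ℤ) ≠ 11) ∨ (k : ℤ) ≤ 9 ∨ (x : ℤ) ≤ 10 ∨ (x : ℤ) = 12 := by
        rcases h with ⟨h1, h2⟩ | h1 | h1 | h1
        · left; constructor <;> omega
        · right; left; omega
        · right; right; left; omega
        · right; right; right; omega
      exact range47 hkz hx0 hw0 hwz h'
  rcases key with h | h | h | h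
  · refine row84 cP cQ hU hk hR hC hw hD p hp ?_ ?_ <;> omega
  · exact two_row cP cQ hU hR hC hw p hp (by omega) (by omega)
  · have h1 : (E A).card ≤ (k + x) * D := by
      rw [card_E_rows, ← cP, ← smul_eq_mul, ← card_univ, ← sum_const]
      exact sum_le_sum (fun r _ => hR r)
    have h2 : (k + x) * D ≤ B := by exact_mod_cast h
    rw [← hB]
    exact h1.trans h2
  · have h1 := deg2 cP cQ hU hR hC
    have h2 : k + 2 * x * D ≤ B := by exact_mod_cast h
    rw [← hB]
    exact h1.trans h2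

/-- **Exact ranges**: the bound holds when `k ≤ x + 8` and
`k ^ 2 + 2 k x ≤ x ^ 2 + 9 x + 5 k`, when `k ≤ 9`, when `k = 10` and `x ≠ 11`, when `x ≤ 10` and
when `x = 12`. -/
theorem full47 {P Q : Type} [Fintype P] [Fintype Q] [DecidableEq P] [DecidableEq Q]
    {A : P → Q → Bool} {k x : ℕ} (cP : Fintype.card P = k + x)
    (cQ : Fintype.card Q = k + x) (hU : U A k) (hk : 2 ≤ k)
    (hc : (k ≤ x + 8 ∧ k ^ 2 + 2 * k * x ≤ x ^ 2 + 9 * x + 5 * k) ∨
      (k ≤ 10 ∧ x ≠ 11) ∨ k ≤ 9 ∨ x ≤ 10 ∨ x = 12) :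
    (E A).card ≤ (x + 1) ^ 2 + (k + x - 1) := by
  rcases (E A).eq_empty_or_nonempty with h | ⟨⟨r0, c0⟩, h0⟩
  · rw [h]; simp
  have h0' : A r0 c0 = true := by simpa [E] using h0
  obtain ⟨p, _, hp⟩ := exists_max_image univ (fun r => (Nr A r).card) ⟨r0, mem_univ r0⟩
  obtain ⟨v, _, hv⟩ := exists_max_image univ (fun c => (Nc A c).card) ⟨c0, mem_univ c0⟩
  have h1 : 1 ≤ (Nr A p).card :=
    le_trans (card_pos.2 ⟨c0, mem_Nr.2 h0'⟩) (hp r0 (mem_univ _))
  have h2 : 1 ≤ (Nc A v).card :=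
    le_trans (card_pos.2 ⟨r0, mem_Nc.2 h0'⟩) (hv c0 (mem_univ _))
  rcases le_total (Nc A v).card (Nr A p).card with h3 | h3
  · exact side47 cP cQ hU hk (fun r => hp r (mem_univ _))
      (fun c => (hv c (mem_univ _)).trans h3) h1 p rfl hc
  · have hswapE : (E (fun c r => A r c)).card = (E A).card := by
      rw [card_E_rows (fun c r => A r c), card_E_cols A]
      rfl
    have h4 := side47 (A := fun c r => A r c) (D := (Nc A v).card) cQ cP (U_swap hU) hk
      (fun c => hv c (mem_univ _)) (fun r => (hp r (mem_univ _)).trans h3) h2 v rfl hc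
    rw [hswapE] at h4
    exact h4

end SIFU
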